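import Pool.Agent.H95.Carl

set_option autoImplicit false
open Pool.Agent.H95.CarlDefs

theorem Pool.Agent.Results.MP_fd0bc0_an.Prod.result :
    ∃ A B : L2 →ₗ.[ℂ] L2, IsCarleman (gr A) ∧ IsCarleman (gr B) ∧
      dom A = Set.univ ∧ Dense (dom B) ∧ ¬ IsCarleman (prodGr A B) :=
  Pool.Agent.H95.Carl.main
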